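import Pool.Agent.X140.CP.Base
import Pool.Agent.TH188.QS.Comp3

/-!
# Composites of uniformizable valuations
-/

set_option autoImplicit false
set_option linter.unusedSectionVars false
set_option linter.unusedVariables false

universe u

open IsLocalRing Pool.Agent.W418.LU2 Pool.Agent.H176.DT

namespace Pool.Agent.X140.CV

section gp

variable {K : Type u} [Field K] {V : ValuationSubring K}

/-- Strong uniformization implies the property `GP`. -/
theorem gp_of_su {A : Subring K} (h : SU V A) : Pool.Agent.TH188.QS.GP V A := by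
  classical
  intro G H hG hH hGA hHA
  obtain ⟨T, n, x, hS, hT⟩ := h (G ∪ (H \ {0})) (hG.union (hH.subset Set.sdiff_subset)) (by
    rintro g (hg | hg)
    · exact (hGA g hg).1
    · exact hg.2)
  obtain ⟨β, hβA, hβm, hβT, hβx⟩ := hS.den
  have hβ0 : β ≠ 0 := by
    obtain ⟨u, hu0, -, -, δ, rfl⟩ := hβm
    exact mul_ne_zero hu0 (mo_ne_zero hS.reg.ne δ)
  refine ⟨Fin n, inferInstance, x, PP V A T, β, hS.reg, ⟨hβA, hβ0, T, hS.fin, fun t ht => ⟨?_, ?_⟩,
    rfl⟩, hβm, fun h hh => (hT h (Or.inl hh)).1, fun h hh => ?_⟩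
  · have h1 : t ∈ PP V A T := ⟨t, Subring.subset_closure (Or.inr ht), 1, Subring.one_mem _,
      one_ne_zero, by rw [inv_one]; exact V.one_mem, by rw [inv_one, mul_one]⟩
    exact hS.reg.PA h1
  · rw [mul_comm]
    exact hβT t ht
  · by_cases h0 : h = 0
    · rw [h0]
      exact Subring.zero_mem _
    · exact (hT h (Or.inr ⟨hh, h0⟩)).2 (hHA h hh).1

/-- Strong uniformization of one model implies strong uniformization of all models. -/
theorem su_all' (R : Subring K) [IsNoetherianRing R]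
    (h : ∃ U : Set K, U.Finite ∧ Mod V (Subring.closure ((R : Set K) ∪ U)) ∧
      SU V (Subring.closure ((R : Set K) ∪ U)))
    (A : Subring K) (G : Set K) (hG : G.Finite) (hA : A = Subring.closure ((R : Set K) ∪ G))
    (hAM : Mod V A) : SU V A := by
  obtain ⟨U, hU, hM, hSU⟩ := h
  have hGA : ∀ g ∈ G, g ∈ V := fun g hg => hAM.1 (by
    rw [hA]
    exact Subring.subset_closure (Or.inr hg))
  have hUA : ∀ g ∈ U, g ∈ V := fun g hg => hM.1 (Subring.subset_closure (Or.inr hg))
  have h2 := (p_move V _ hM G hG hGA).1 hSU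
  have h3 : Subring.closure ((Subring.closure ((R : Set K) ∪ U) : Set K) ∪ G) =
      Subring.closure ((A : Set K) ∪ U) := by
    rw [hA, Pool.Agent.TH188.QS.closure_closure_union, Pool.Agent.TH188.QS.closure_closure_union,
      Set.union_assoc, Set.union_assoc, Set.union_comm U G]
  rw [h3] at h2
  exact (p_move V A hAM U hU hUA).2 h2

/-- Strong uniformization of all models. -/
theorem su_all (R : Subring K) [IsNoetherianRing R] (h : Inv V R (⊤ : Subfield K).subtype)
    (A : Subring K) (G : Set K) (hG : G.Finite) (hA : A = Subring.closure ((R : Set K) ∪ G))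
    (hAM : Mod V A) : SU V A := by
  have hN : IsNoetherianRing A := by
    rw [hA]
    exact p_noe R G hG
  exact p_base V A hAM (sub_fin V R h A G hG hA hAM)

end gp

section comp

variable {k : Type u} [Field k] {L : Type u} [Field L]

lemma noe_range (ρ : k →+* L) : IsNoetherianRing ρ.range := by
  have h3 : IsNoetherianRing k := inferInstance
  exact isNoetherianRing_of_surjective k ρ.range ρ.rangeRestrict ρ.rangeRestrict_surjective

/-- Finite generation from the invariant. -/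
lemma exists_gen {V : ValuationSubring L} {R : Subring L}
    (h : Inv V R (⊤ : Subfield L).subtype) :
    ∃ U : Set L, U.Finite ∧ Mod V (Subring.closure ((R : Set L) ∪ U)) := by
  obtain ⟨-, U, hU, ⟨hM1, hM2⟩, -⟩ := h
  have hR : ∀ z, z ∈ (⊤ : Subfield L).subtype ⁻¹' (R : Set L) ↔ (z : L) ∈ R := fun z => Iff.rfl
  set B := Subring.closure ((⊤ : Subfield L).subtype ⁻¹' (R : Set L) ∪ U) with hB
  have h1 : B.map (⊤ : Subfield L).subtype =
      Subring.closure ((R : Set L) ∪ (⊤ : Subfield L).subtype '' U) := by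
    rw [hB, RingHom.map_closure, Set.image_union]
    congr 2
    ext z
    constructor
    · rintro ⟨w, hw, rfl⟩
      exact hw
    · intro hz
      exact ⟨⟨z, trivial⟩, hz, rfl⟩
  refine ⟨(⊤ : Subfield L).subtype '' U, hU.image _, ?_⟩
  rw [← h1]
  refine ⟨?_, fun z => ?_⟩
  · rintro _ ⟨z, hz, rfl⟩
    exact hM1 hz
  · obtain ⟨a, ha, b, hb, hb0, h⟩ := hM2 ⟨z, trivial⟩
    refine ⟨_, ⟨a, ha, rfl⟩, _, ⟨b, hb, rfl⟩, ?_, ?_⟩
    · intro hcon
      exact hb0 (Subtype.ext hcon)
    · exact congrArg Subtype.val h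

/-- The composite of two uniformizable valuations: there is a model with strong uniformization. -/
theorem su_comp (V V₁ : ValuationSubring L) (W : ValuationSubring (ResidueField V₁))
    (hVW : Pool.Agent.X140.CP.IsComposite V V₁ W) (ρ : k →+* L) (hρ : ∀ c, ρ c ∈ V)
    (hρ₁ : ∀ c, ρ c ∈ V₁.toSubring)
    (h₁ : Inv V₁ ρ.range (⊤ : Subfield L).subtype)
    (h₂ : ∃ U : Set (ResidueField V₁), U.Finite ∧ Mod W (Subring.closure
        ((((residue V₁).comp (ρ.codRestrict V₁.toSubring hρ₁)).range : Set (ResidueField V₁)) ∪ U)) ∧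
      SU W (Subring.closure
        ((((residue V₁).comp (ρ.codRestrict V₁.toSubring hρ₁)).range : Set (ResidueField V₁)) ∪
          U))) :
    ∃ G : Set L, G.Finite ∧ Mod V (Subring.closure ((ρ.range : Set L) ∪ G)) ∧
      LogUnif V (Subring.closure ((ρ.range : Set L) ∪ G)) := by
  classical
  have hN := noe_range ρ
  set ρ' : k →+* ResidueField V₁ := (residue V₁).comp (ρ.codRestrict V₁.toSubring hρ₁) with hρ'd
  have hN' := noe_range ρ'
  obtain ⟨U₁, hU₁, hM₁⟩ := exists_gen h₁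
  obtain ⟨U₂, hU₂, hM₂, -⟩ := id h₂
  have hVV : V ≤ V₁ := fun z hz => ((hVW z).1 hz).1
  -- the generators
  let inv' : L → L := fun z => if z ∈ V then z else z⁻¹
  have hinvV : ∀ z, inv' z ∈ V := by
    intro z
    change (if z ∈ V then z else z⁻¹) ∈ V
    split_ifs with h
    · exact h
    · exact (V.mem_or_inv_mem z).resolve_left h
  have hlift : ∀ w : ResidueField V₁, ∃ z : L, ∃ hz : z ∈ V₁, residue V₁ ⟨z, hz⟩ = w := by
    intro w
    obtain ⟨z, hz⟩ := residue_surjective w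
    exact ⟨z, z.2, hz⟩
  choose li hli₁ hli using hlift
  let G : Set L := inv' '' U₁ ∪ li '' U₂
  have hG : G.Finite := (hU₁.image _).union (hU₂.image _)
  have hGV : ∀ g ∈ G, g ∈ V := by
    rintro _ (⟨z, hz, rfl⟩ | ⟨w, hw, rfl⟩)
    · exact hinvV z
    · refine (hVW _).2 ⟨hli₁ w, ?_⟩
      rw [hli w]
      exact hM₂.1 (Subring.subset_closure (Or.inr hw))
  set A := Subring.closure ((ρ.range : Set L) ∪ G) with hA
  have hAV : A ≤ V.toSubring := by
    rw [hA, Subring.closure_le]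
    rintro z (⟨c, rfl⟩ | hz)
    · exact hρ c
    · exact hGV z hz
  have hAV₁ : A ≤ V₁.toSubring := fun a ha => hVV (hAV ha)
  have hfr : ∀ z : L, ∃ a ∈ A, ∃ b ∈ A, b ≠ 0 ∧ z = a * b⁻¹ := by
    intro z
    have key : ∀ w ∈ Subring.closure ((ρ.range : Set L) ∪ U₁),
        w ∈ Subfield.closure ((ρ.range : Set L) ∪ G) := by
      intro w hw
      refine (?_ : Subring.closure ((ρ.range : Set L) ∪ U₁) ≤
        (Subfield.closure ((ρ.range : Set L) ∪ G)).toSubring) hw
      rw [Subring.closure_le]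
      rintro w (hw | hw)
      · exact Subfield.subset_closure (Or.inl hw)
      · have h3 : inv' w ∈ Subfield.closure ((ρ.range : Set L) ∪ G) :=
          Subfield.subset_closure (Or.inr (Or.inl ⟨w, hw, rfl⟩))
        by_cases h4 : w ∈ V
        · have h5 : inv' w = w := if_pos h4
          rwa [h5] at h3
        · have h5 : inv' w = w⁻¹ := if_neg h4
          rw [h5] at h3
          have h6 := (Subfield.closure ((ρ.range : Set L) ∪ G)).inv_mem h3
          rwa [inv_inv] at h6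
    obtain ⟨a, ha, b, hb, hb0, rfl⟩ := hM₁.2 z
    have h1 : a * b⁻¹ ∈ Subfield.closure ((ρ.range : Set L) ∪ G) :=
      Subfield.mul_mem _ (key a ha) (Subfield.inv_mem _ (key b hb))
    obtain ⟨x, hx, y, hy, hxy⟩ := Subfield.mem_closure_iff.1 h1
    by_cases h0 : y = 0
    · exact ⟨0, A.zero_mem, 1, A.one_mem, one_ne_zero, by rw [← hxy, h0]; simp⟩
    · exact ⟨x, hx, y, hy, h0, by rw [← hxy]; exact div_eq_mul_inv _ _⟩
  have hNA : IsNoetherianRing A := p_noe ρ.range G hG
  have hSU₁ : SU V₁ A := su_all ρ.range h₁ A G hG hA ⟨hAV₁, hfr⟩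
  have hgp : Pool.Agent.TH188.QS.GP V A := by
    refine Pool.Agent.TH188.QS.gp_comp hVW hAV (gp_of_su hSU₁) fun T' hT' hT'V => ?_
    have hρ' : ∀ x, Pr (residue V₁) (ρ x) (ρ' x) := fun x =>
      Pool.Agent.TH188.QS.res_pr (hρ₁ x)
    have hTV₁ : ∀ t ∈ G ∪ T', t ∈ V₁ := by
      rintro t (ht | ht)
      · exact hVV (hGV t ht)
      · exact hVV (hT'V t ht)
    let T₂ : Set (ResidueField V₁) :=
      {w | ∃ t ∈ G ∪ T', Pr (residue V₁) t w}
    have hT₂f : T₂.Finite := by
      have h1 : T₂ ⊆ (fun t : L => if ht : t ∈ V₁ then residue V₁ ⟨t, ht⟩ else 0) ''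
          (G ∪ T') := by
        rintro w ⟨t, ht, htw⟩
        refine ⟨t, ht, ?_⟩
        simp only [dif_pos (hTV₁ t ht)]
        exact (Pool.Agent.TH188.QS.res_pr (hTV₁ t ht)).unique htw
      exact ((hG.union hT').image _).subset h1
    have him : Pool.Agent.TH188.QS.im (residue V₁) (Subring.closure ((A : Set L) ∪ T')) =
        Subring.closure ((ρ'.range : Set (ResidueField V₁)) ∪ T₂) := by
      rw [hA, Pool.Agent.TH188.QS.closure_closure_union, Set.union_assoc]
      refine Pool.Agent.TH188.QS.im_closure ?_ ?_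
      · rintro u (⟨x, rfl⟩ | hu)
        · exact ⟨ρ' x, Or.inl ⟨x, rfl⟩, hρ' x⟩
        · exact ⟨_, Or.inr ⟨u, hu, Pool.Agent.TH188.QS.res_pr (hTV₁ u hu)⟩,
            Pool.Agent.TH188.QS.res_pr (hTV₁ u hu)⟩
      · rintro w (⟨x, rfl⟩ | ⟨t, ht, h⟩)
        · exact ⟨ρ x, Or.inl ⟨x, rfl⟩, hρ' x⟩
        · exact ⟨t, Or.inr ht, h⟩
    rw [him]
    refine gp_of_su (su_all' ρ'.range h₂ _ T₂ hT₂f rfl ⟨?_, fun z => ?_⟩)
    · rw [← him]
      rintro w ⟨z, hz, hzw⟩
      have hzV : z ∈ V := Pool.Agent.TH188.QS.cl_le hAV hT'V hz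
      obtain ⟨h1, h2⟩ := (hVW z).1 hzV
      rw [hzw.unique (Pool.Agent.TH188.QS.res_pr h1)]
      exact h2
    · have hmono : Subring.closure ((ρ'.range : Set (ResidueField V₁)) ∪ U₂) ≤
          Subring.closure ((ρ'.range : Set (ResidueField V₁)) ∪ T₂) := by
        refine Subring.closure_mono (Set.union_subset_union_right _ ?_)
        intro w hw
        refine ⟨li w, Or.inl (Or.inr ⟨w, hw, rfl⟩), ?_⟩
        have h5 := Pool.Agent.TH188.QS.res_pr (hli₁ w)
        rwa [hli w] at h5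
      obtain ⟨a, ha, b, hb, hb0, h⟩ := hM₂.2 z
      exact ⟨a, hmono ha, b, hmono hb, hb0, h⟩
  exact ⟨G, hG, ⟨hAV, hfr⟩, hgp.logUnif hAV⟩

/-- Transport along an isomorphism. -/
lemma inv_iso {κ E : Type u} [Field κ] [Field E] (e : κ →+* E) (he : Function.Surjective e)
    (W : ValuationSubring E) (R : Subring E) (h : Inv W R (⊤ : Subfield E).subtype) :
    Inv W R e := by
  let e' : κ ≃+* E := RingEquiv.ofBijective e ⟨e.injective, he⟩
  letI : Algebra (⊤ : Subfield E) κ :=
    ((e'.symm : E →+* κ).comp (⊤ : Subfield E).subtype).toAlgebra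
  have hψ : e.comp (algebraMap (⊤ : Subfield E) κ) = (⊤ : Subfield E).subtype := by
    ext z
    exact e'.apply_symm_apply z
  refine Inv.step (F := (⊤ : Subfield E)) (F' := κ) (φ := (⊤ : Subfield E).subtype) hψ h ?_
  intro A hM hSU
  exact key_triv A hM hSU fun z => ⟨⟨e z, trivial⟩, e'.symm_apply_apply z⟩

/-- The composite, with any field `E` instead of the residue field. -/
theorem su_comp' (V V₁ : ValuationSubring L) {E : Type u} [Field E] (W : ValuationSubring E)
    (φ : V₁ →+* E) (hφ : Function.Surjective φ)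
    (hVW : ∀ z : L, z ∈ V ↔ ∃ hz : z ∈ V₁, φ ⟨z, hz⟩ ∈ W) (ρ : k →+* L) (hρ : ∀ c, ρ c ∈ V)
    (τ : k →+* E) (hτ : ∀ c, ∃ h : ρ c ∈ V₁, φ ⟨ρ c, h⟩ = τ c)
    (h₁ : Inv V₁ ρ.range (⊤ : Subfield L).subtype)
    (h₂ : Inv W τ.range (⊤ : Subfield E).subtype) :
    ∃ G : Set L, G.Finite ∧ Mod V (Subring.closure ((ρ.range : Set L) ∪ G)) ∧
      LogUnif V (Subring.closure ((ρ.range : Set L) ∪ G)) := by
  have hloc : IsLocalHom φ := by
    constructor
    intro x hx
    by_contra h
    have h1 : x ∈ maximalIdeal V₁ := (mem_maximalIdeal x).2 h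
    have h2 : (RingHom.ker φ).IsMaximal := RingHom.ker_isMaximal_of_surjective φ hφ
    rw [← eq_maximalIdeal h2, RingHom.mem_ker] at h1
    rw [h1] at hx
    exact not_isUnit_zero hx
  let e : ResidueField V₁ →+* E := ResidueField.lift φ
  have he : ∀ x : V₁, e (residue V₁ x) = φ x := fun x => ResidueField.lift_residue_apply φ x
  have hes : Function.Surjective e := by
    intro w
    obtain ⟨x, hx⟩ := hφ w
    exact ⟨residue V₁ x, by rw [he, hx]⟩
  have hρ₁ : ∀ c, ρ c ∈ V₁.toSubring := fun c => (hτ c).1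
  set ρ' : k →+* ResidueField V₁ := (residue V₁).comp (ρ.codRestrict V₁.toSubring hρ₁) with hρ'd
  have heρ : ∀ c, e (ρ' c) = τ c := by
    intro c
    obtain ⟨h, h'⟩ := hτ c
    rw [← h']
    exact he _
  obtain ⟨-, U₂, hU₂, hM₂, hS₂⟩ := inv_iso e hes W τ.range h₂
  have hpre : e ⁻¹' (τ.range : Set E) = (ρ'.range : Set (ResidueField V₁)) := by
    ext w
    constructor
    · rintro ⟨c, hc⟩
      refine ⟨c, e.injective ?_⟩
      rw [heρ, hc]
    · rintro ⟨c, rfl⟩
      exact ⟨c, (heρ c).symm⟩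
  rw [hpre] at hM₂ hS₂
  refine su_comp V V₁ (W.comap e) ?_ ρ hρ hρ₁ h₁ ⟨U₂, hU₂, hM₂, hS₂⟩
  intro z
  rw [hVW z]
  constructor
  · rintro ⟨hz, h⟩
    refine ⟨hz, ?_⟩
    change e (residue V₁ ⟨z, hz⟩) ∈ W
    rw [he]
    exact h
  · rintro ⟨hz, h⟩
    refine ⟨hz, ?_⟩
    have h' : e (residue V₁ ⟨z, hz⟩) ∈ W := h
    rwa [he] at h'

/-- The composite step for a subfield. -/
theorem inv_composite {K : Type u} [Field K] (V : ValuationSubring K) (σ : k →+* K)
    (hσ : ∀ c, σ c ∈ V) (L : Subfield K) (ρ : k →+* L) (hρσ : ∀ c, (ρ c : K) = σ c)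
    (V₁ : ValuationSubring L) {E : Type u} [Field E] (W : ValuationSubring E)
    (φ : V₁ →+* E) (hφ : Function.Surjective φ)
    (hVW : ∀ z : L, (z : K) ∈ V ↔ ∃ hz : z ∈ V₁, φ ⟨z, hz⟩ ∈ W)
    (τ : k →+* E) (hτ : ∀ c, ∃ h : ρ c ∈ V₁, φ ⟨ρ c, h⟩ = τ c)
    (h₁ : Inv V₁ ρ.range (⊤ : Subfield L).subtype)
    (h₂ : Inv W τ.range (⊤ : Subfield E).subtype) :
    Inv V σ.range L.subtype := by
  have hN := noe_range ρ
  obtain ⟨G, hG, hM, hLU⟩ := su_comp' (V.comap L.subtype) V₁ W φ hφ hVW ρ (fun c => by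
    change (ρ c : K) ∈ V
    rw [hρσ]
    exact hσ c) τ hτ h₁ h₂
  have h4 := Pool.Agent.X140.CP.inv_base V L ρ.range G hG hM hLU
  have h5 : ρ.range.map L.subtype = σ.range := by
    rw [RingHom.map_range]
    have h6 : L.subtype.comp ρ = σ := RingHom.ext fun c => hρσ c
    rw [h6]
  rwa [h5] at h4

end comp

end Pool.Agent.X140.CV
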